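import Pool.Agent.H576P.FormMain

open Pool.Agent.H576.Pyth4

/-- `MP_6ee505_co`, a class of colourings: let `S` be a set of primes with convergent sum of
reciprocals and `M ≥ 1`, and let `c` be a colouring (any set of colours) such that `c (T u) = c T`
whenever `T ≥ 1` and `u ≡ 1 (mod M)` has no prime factor in `S`.  Then for all nonzero integers
`a, b` with `a + b ≠ 0` the equation `a x² + b y² = (a + b) z²` has a solution in distinct positive
integers of one colour. -/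
theorem Pool.Agent.Results.MP_6ee505_co.SumCoefficientEquation.result
    (S : Set ℕ) (hS : ∀ p ∈ S, p.Prime) (hsum : Summable (fun p : S => (1 : ℝ) / (p : ℕ)))
    (M : ℕ) (hM : 0 < M) {κ : Type*} (c : ℕ → κ)
    (hc : ∀ T u : ℕ, 0 < T → 0 < u → u ≡ 1 [MOD M] → (∀ p ∈ S, ¬ p ∣ u) → c (T * u) = c T)
    (a b : ℤ) (ha : a ≠ 0) (hb : b ≠ 0) (hab : a + b ≠ 0) :
    ∃ x y z : ℕ, 0 < x ∧ 0 < y ∧ 0 < z ∧ x ≠ y ∧ y ≠ z ∧ x ≠ z ∧
      a * (x : ℤ) ^ 2 + b * (y : ℤ) ^ 2 = (a + b) * (z : ℤ) ^ 2 ∧ c x = c y ∧ c y = c z :=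
  mainF S hS hsum M hM c hc a b ha hb hab
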